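import Pool.Agent.H1.UZ.TarPC

/-! # PCC: substitution of coordinatewise maps, level `n` -/

set_option linter.unusedVariables false

open Ordinal Order Set
open scoped ZFSet

namespace SE.UZ

open SF

theorem pf_PCC (CW : T_PCW) (KS : T_KS) (AH : T_AH) (AI : T_AI) : T_PCC := by
  intro M hM n
  have mpr : ∀ x v, M x → M v → M (prl x v) := fun x v mx mv =>
    AI.2.2.1.1 M hM (cons x (cons v fun _ => ∅)) (In.cons (In.cons (fun _ => hM.mempty) mv) mx)
  induction n with
  | zero =>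
    intro F mF hF a ma ra
    obtain ⟨c, mc, rc, hc⟩ := KS M hM F mF hF a ma ra
    exact ⟨c, mc, rc, fun x mx rx => hc x rx⟩
  | succ n ih =>
    intro F mF hF a ma ra
    have h1 := CW.2.1 F hF
    have h2 := (CW.2.2.2.2.2.2.2.2 M hM).1 F mF
    obtain ⟨c, mc, rc, hc⟩ := ih (cw1 F) h2.1 h1.1 a ma ra
    refine ⟨c, mc, rc, fun x mx rx => ?_⟩
    show (∃ v, M v ∧ Rl v ∧ ¬ SgH M n c (prl x v)) ↔
      ∃ v, M v ∧ Rl v ∧ ¬ SgH M n a (prl (cw F x) v)
    refine exists_congr fun v => and_congr_right fun mv => and_congr_right fun rv => ?_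
    rw [hc (prl x v) (mpr x v mx mv) (AH.1 x v rx rv).1, h1.2 x v rx rv]

end SE.UZ
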