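import Pool.Agent.H1.UZ.TarPC

/-! # PCD: union and intersection of two open sets -/

set_option linter.unusedVariables false

open Ordinal Order Set
open scoped ZFSet

namespace SE.UZ

open SF

theorem PCD.rs : Tm ZFm (fun _ v => SE.rs (v 0) (v 1)) :=
  (Tm.sep (R := fun _ u => SF.fst (u 0) ∈ u 2) (Dfb.mem (Tm.fst (Tm.var 0)) (Tm.var 2))
    (Tm.var 0)).congr fun M k v hv => rfl

theorem PCD.sub (m k : ℕ) : nS m ⊆ nS (m + k) := by
  induction k with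
  | zero => exact fun z hz => hz
  | succ k ih =>
    intro z hz
    rw [← Nat.add_assoc, nS_succ]
    exact ZFSet.mem_insert_iff.2 (Or.inr (ih hz))

theorem PCD.rs_ge (x : V) {m n : ℕ} (h : m ≤ n) : SE.rs (SE.rs x (nS m)) (nS n) = SE.rs x (nS m) := by
  unfold SE.rs
  ext z
  simp only [ZFSet.mem_sep]
  constructor
  · exact fun h => h.1
  · intro hz
    refine ⟨hz, ?_⟩
    obtain ⟨k, rfl⟩ := Nat.exists_eq_add_of_le h
    exact PCD.sub m k hz.2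

theorem pf_PCD (KB : T_KB) (AF : T_AF) (AG : T_AG) : T_PCD := by
  intro M hM a b ma ra mb rb
  obtain ⟨kb1, kb2⟩ := KB
  obtain ⟨af1, -, af3, -⟩ := AF
  obtain ⟨ag1, -⟩ := AG
  have hsq : ∀ x, Rl x → ∀ m : ℕ, SE.rs x (nS m) ∈ sq := fun x rx m =>
    (af1 _).2 ⟨m, ((ag1 x rx).2.2.1 m).2.1⟩
  constructor
  · have h1 : Tm ZFm (fun _ v => (rg (v 0) ∪ rg (v 1)) ∩ sq) :=
      Tm.inter (Tm.union (Tm.rg (Tm.var 0)) (Tm.rg (Tm.var 1))) af3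
    have mP : M ((rg a ∪ rg b) ∩ sq) := h1.1 M hM (cons a (cons b fun _ => ∅))
      (In.cons (In.cons (fun _ => hM.mempty) mb) ma)
    obtain ⟨c, mc, rc, hc⟩ := kb2 M hM _ mP (fun z hz => (ZFSet.mem_inter.1 hz).2)
    refine ⟨c, mc, rc, fun x rx => ?_⟩
    rw [hc x rx, kb1 a x ra rx, kb1 b x rb rx, ← exists_or]
    refine exists_congr fun m => ?_
    rw [ZFSet.mem_inter, ZFSet.mem_union]
    exact ⟨fun h => h.1, fun h => ⟨h, hsq x rx m⟩⟩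
  · have hR : Dfb ZFm (fun _ u => (∃ m ∈ om, SE.rs (u 0) m ∈ rg (u 1)) ∧
        ∃ m ∈ om, SE.rs (u 0) m ∈ rg (u 2)) := by
      refine Dfb.and ?_ ?_
      · exact Dfb.bex (R := fun _ u => SE.rs (u 1) (u 0) ∈ rg (u 2)) ktr_zfm Tm.om
          (Dfb.mem (Tm.at2 (F := fun _ p q => SE.rs p q) PCD.rs (Tm.var 1) (Tm.var 0))
            (Tm.rg (Tm.var 2)))
      · exact Dfb.bex (R := fun _ u => SE.rs (u 1) (u 0) ∈ rg (u 3)) ktr_zfm Tm.om
          (Dfb.mem (Tm.at2 (F := fun _ p q => SE.rs p q) PCD.rs (Tm.var 1) (Tm.var 0))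
            (Tm.rg (Tm.var 3)))
    have h1 := Tm.sep hR af3
    have mP : M (sq.sep fun s => (∃ m ∈ om, SE.rs s m ∈ rg a) ∧ ∃ m ∈ om, SE.rs s m ∈ rg b) :=
      h1.1 M hM (cons a (cons b fun _ => ∅)) (In.cons (In.cons (fun _ => hM.mempty) mb) ma)
    obtain ⟨c, mc, rc, hc⟩ := kb2 M hM _ mP (fun z hz => (ZFSet.mem_sep.1 hz).1)
    refine ⟨c, mc, rc, fun x rx => ?_⟩
    rw [hc x rx, kb1 a x ra rx, kb1 b x rb rx]
    have hle : ∀ {m n : ℕ}, m ≤ n → SE.rs (SE.rs x (nS n)) (nS m) = SE.rs x (nS m) :=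
      fun {m n} h => (ag1 x rx).2.2.2 m n h
    have down : ∀ (m : ℕ) (S : V), (∃ k ∈ om, SE.rs (SE.rs x (nS m)) k ∈ S) →
        ∃ k : ℕ, SE.rs x (nS k) ∈ S := by
      rintro m S ⟨k', hk', h⟩
      obtain ⟨k, rfl⟩ := mem_om.1 hk'
      rcases le_total k m with hkm | hkm
      · rw [hle hkm] at h; exact ⟨k, h⟩
      · rw [PCD.rs_ge x hkm] at h; exact ⟨m, h⟩
    constructor
    · rintro ⟨m, hm⟩
      obtain ⟨-, h1, h2⟩ := ZFSet.mem_sep.1 hm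
      exact ⟨down m _ h1, down m _ h2⟩
    · rintro ⟨⟨m, hm⟩, ⟨n, hn⟩⟩
      refine ⟨max m n, ZFSet.mem_sep.2 ⟨hsq x rx _, ⟨nS m, nS_mem_om m, ?_⟩,
        ⟨nS n, nS_mem_om n, ?_⟩⟩⟩
      · rw [hle (le_max_left m n)]; exact hm
      · rw [hle (le_max_right m n)]; exact hn

end SE.UZ
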