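import Pool.Agent.H1.UZ.TarPC

/-! # PCE: union and intersection, level `n` -/

set_option linter.unusedVariables false

open Ordinal Order Set
open scoped ZFSet

namespace SE.UZ

open SF

theorem pf_PCE (CW : T_PCW) (CC : T_PCC) (CD : T_PCD) (AH : T_AH) (AI : T_AI) : T_PCE := by
  intro M hM n
  have mpr : ∀ x v, M x → M v → M (prl x v) := fun x v mx mv =>
    AI.2.2.1.1 M hM (cons x (cons v fun _ => ∅)) (In.cons (In.cons (fun _ => hM.mempty) mv) mx)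
  obtain ⟨-, -, cr, cr', ca, cb, -, -, cM⟩ := CW
  obtain ⟨-, mr, mca, mcb, -, -⟩ := cM M hM
  induction n with
  | zero =>
    intro a b ma ra mb rb
    obtain ⟨⟨c, mc, rc, hc⟩, d, md, rd, hd⟩ := CD M hM a b ma ra mb rb
    exact ⟨⟨c, mc, rc, fun x mx rx => hc x rx⟩, d, md, rd, fun x mx rx => hd x rx⟩
  | succ n ih =>
    intro a b ma ra mb rb
    constructor
    · obtain ⟨-, c, mc, rc, hc⟩ := ih a b ma ra mb rb
      refine ⟨c, mc, rc, fun x mx rx => ?_⟩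
      show (∃ v, M v ∧ Rl v ∧ ¬ SgH M n c (prl x v)) ↔
        (∃ v, M v ∧ Rl v ∧ ¬ SgH M n a (prl x v)) ∨ ∃ v, M v ∧ Rl v ∧ ¬ SgH M n b (prl x v)
      rw [← exists_or]
      refine exists_congr fun v => ?_
      rw [← and_or_left, ← and_or_left]
      refine and_congr_right fun mv => and_congr_right fun rv => ?_
      rw [hc (prl x v) (mpr x v mx mv) (AH.1 x v rx rv).1, not_and_or]
    · obtain ⟨a1, ma1, ra1, ha1⟩ := CC M hM n cwa mca ca.1 a ma ra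
      obtain ⟨b1, mb1, rb1, hb1⟩ := CC M hM n cwb mcb cb.1 b mb rb
      obtain ⟨⟨c, mc, rc, hc⟩, -⟩ := ih a1 b1 ma1 ra1 mb1 rb1
      refine ⟨c, mc, rc, fun x mx rx => ?_⟩
      show (∃ u, M u ∧ Rl u ∧ ¬ SgH M n c (prl x u)) ↔
        (∃ v, M v ∧ Rl v ∧ ¬ SgH M n a (prl x v)) ∧ ∃ v, M v ∧ Rl v ∧ ¬ SgH M n b (prl x v)
      have key : ∀ u, M u → Rl u → (¬ SgH M n c (prl x u) ↔
          ¬ SgH M n a (prl x (r0 u)) ∧ ¬ SgH M n b (prl x (r1 u))) := by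
        intro u mu ru
        have m1 := mpr x u mx mu
        have r1' := (AH.1 x u rx ru).1
        rw [hc _ m1 r1', ha1 _ m1 r1', hb1 _ m1 r1', ca.2 x u rx ru, cb.2 x u rx ru, not_or]
      constructor
      · rintro ⟨u, mu, ru, hu⟩
        obtain ⟨h1, h2⟩ := (key u mu ru).1 hu
        exact ⟨⟨r0 u, (mr u mu).1, (cr u ru).1, h1⟩, ⟨r1 u, (mr u mu).2, (cr u ru).2, h2⟩⟩
      · rintro ⟨⟨v, mv, rv, hv⟩, ⟨w, mw, rw', hw⟩⟩
        obtain ⟨e0, e1⟩ := cr' v w rv rw'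
        refine ⟨prl v w, mpr v w mv mw, (AH.1 v w rv rw').1, ?_⟩
        rw [key _ (mpr v w mv mw) (AH.1 v w rv rw').1, e0, e1]
        exact ⟨hv, hw⟩

end SE.UZ
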