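import Pool.Agent.H1.UZ.TarPC

/-! # PTJ: the translation of finite sequences -/

set_option linter.unusedVariables false

open Ordinal Order Set
open scoped ZFSet

namespace SE.UZ

open SF PSR

theorem PTJ.ln : Primrec ln := Primrec.list_length.comp (Primrec.ofNat (List ℕ))

theorem PTJ.en : Primrec₂ en :=
  (Primrec.list_getD 0).comp₂ ((Primrec.ofNat (List ℕ)).comp₂ Primrec₂.left) Primrec₂.right

theorem PTJ.tm (UA : T_UA) (UB : T_UB) : Tm ZFm (fun _ v => JT (v 0) (nn (v 1))) := by
  obtain ⟨ub1, ub2⟩ := UB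
  have c : Tm ZFm (fun _ u => app (u 1) (nS (SE.en (nn (u 2)) (nn (u 0))))) :=
    Tm.app (Tm.var 1) (Tm.at2 (F := fun _ x y => nS (SE.en (nn x) (nn y))) (ub2 SE.en PTJ.en)
      (Tm.var 2) (Tm.var 0))
  refine (Tm.resS (f := fun _ v => nS (SE.ln (nn (v 1))))
    (g := fun _ u => app (u 1) (nS (SE.en (nn (u 2)) (nn (u 0))))) ?_ c).congr
      fun M k v hv => rfl
  exact Tm.at1 (F := fun _ x => nS (SE.ln (nn x))) (ub1 _ PTJ.ln) (Tm.var 1)

theorem pf_PTJ (AA : T_AA) (AF : T_AF) (AG : T_AG) (UA : T_UA) (UB : T_UB) : T_PTJ := by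
  refine ⟨PTJ.tm UA UB, fun θ hθ => ?_⟩
  obtain ⟨-, -, -, aaP, -⟩ := AA
  obtain ⟨-, -, -, -, af1, -, af2, -⟩ := AF
  obtain ⟨ag1, -, -, -, -, agF⟩ := AG
  have he : ∀ n : ℕ, app θ (nS n) ∈ hf := fun n => app_mem hθ.fn (nS_mem_om _)
  have hSq : ∀ k, Sq (ln k) (JT θ k) := fun k => isFunc_resS _ _ _ fun x _ => he _
  have hdm : ∀ k, dm (JT θ k) = nS (ln k) := fun k => dm_resS _ _
  have happ : ∀ k i, i < ln k → app (JT θ k) (nS i) = app θ (nS (en k i)) := by
    intro k i hi
    have h := app_resS (F := fun i => app θ (nS (en k (nn i)))) (nS_mem_nS.2 hi)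
    have h2 : nn (nS i) = i := nn_nS i
    simp only [h2] at h
    exact h
  refine ⟨fun k => ⟨ln k, hSq k⟩, ?_, ?_⟩
  · intro k k' h
    have h1 : ln k = ln k' := by
      have := congrArg dm h
      rw [hdm, hdm] at this
      exact nS_inj.1 this
    have h2 : ∀ i, i < ln k → en k i = en k' i := by
      intro i hi
      have h3 := happ k i hi
      rw [h, happ k' i (h1 ▸ hi)] at h3
      exact (hθ.inj _ _ h3).symm
    have h4 : Denumerable.ofNat (List ℕ) k = Denumerable.ofNat (List ℕ) k' := by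
      refine List.ext_getElem h1 fun i hi hi' => ?_
      have := h2 i hi
      unfold SE.en at this
      rw [List.getD_eq_getElem _ _ hi, List.getD_eq_getElem _ _ hi'] at this
      exact this
    have h5 := congrArg Encodable.encode h4
    rw [Denumerable.encode_ofNat, Denumerable.encode_ofNat] at h5
    exact h5
  · intro x m
    have hR : Rl (hx θ x) ∧ ∀ n : ℕ, app (hx θ x) (nS n) = app θ (nS (x n)) := by
      obtain ⟨h1, h2⟩ := agF (fun n => app θ (nS (x (nn n)))) (fun n => he _)
      refine ⟨h1, fun n => ?_⟩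
      have := h2 n
      rw [nn_nS] at this
      exact this
    set L := (List.range m).map x with hL
    have hln : ln (Encodable.encode L) = m := by
      unfold SE.ln
      rw [Denumerable.ofNat_encode, hL]
      simp
    have hS2 := hSq (Encodable.encode L)
    rw [hln] at hS2
    have hen : ∀ i, i < m → en (Encodable.encode L) i = x i := by
      intro i hi
      unfold SE.en
      rw [Denumerable.ofNat_encode, hL]
      rw [List.getD_eq_getElem _ _ (by simpa using hi)]
      simp
    have hval : ∀ i, i < m →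
        app (rs (hx θ x) (nS m)) (nS i) = app (JT θ (Encodable.encode L)) (nS i) := by
      intro i hi
      rw [happ _ _ (by rw [hln]; exact hi), hen i hi]
      rw [((ag1 _ hR.1).2.2.1 m).2.2.2 i hi, hR.2]
    have hS1 := ((ag1 _ hR.1).2.2.1 m).2.1
    refine subset_antisymm ?_ ?_
    · exact (af2 _ _ _ _ hS1 hS2).2 ⟨le_refl _, hval⟩
    · exact (af2 _ _ _ _ hS2 hS1).2 ⟨le_refl _, fun l hl => (hval l hl).symm⟩

end SE.UZ
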