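import Pool.Agent.H72.UZ.TarW
import Pool.Agent.H45.UZ.TarP

/-! # W0: cores, labels and entries of a tower -/

set_option linter.unusedVariables false

open Ordinal Order Set
open scoped ZFSet

namespace SE.UZ

open SF

namespace W0L

theorem ord_cases {κ ξ η : V} (h : IsOrd κ) (hξ : ξ ∈ κ) (hη : η ∈ κ) :
    ξ ∈ η ∨ ξ = η ∨ η ∈ ξ := by
  obtain ⟨α, rfl⟩ := h
  obtain ⟨β, -, rfl⟩ := mem_toZFSet_iff.1 hξ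
  obtain ⟨γ, -, rfl⟩ := mem_toZFSet_iff.1 hη
  rcases lt_trichotomy β γ with h | h | h
  · exact Or.inl (toZFSet_mem_toZFSet_iff.2 h)
  · exact Or.inr (Or.inl (by rw [h]))
  · exact Or.inr (Or.inr (toZFSet_mem_toZFSet_iff.2 h))

theorem ord_sub {κ ξ η : V} (h : IsOrd κ) (hη : η ∈ κ) (hξ : ξ ∈ η) : ξ ⊆ η :=
  ((isOrd_iff κ).1 h).2 η hη ξ hξ

theorem sub_cases {κ ξ η : V} (h : IsOrd κ) (hξ : ξ ∈ κ) (hη : η ∈ κ) (hs : ξ ⊆ η) :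
    ξ ∈ η ∨ ξ = η := by
  rcases ord_cases h hξ hη with h1 | h1 | h1
  · exact Or.inl h1
  · exact Or.inr h1
  · exact absurd (hs h1) (ZFSet.mem_irrefl η)

theorem larger {κ ξ η : V} (h : IsOrd κ) (hξ : ξ ∈ κ) (hη : η ∈ κ) :
    ∃ ζ ∈ κ, ξ ⊆ ζ ∧ η ⊆ ζ := by
  rcases ord_cases h hξ hη with h1 | h1 | h1
  · exact ⟨η, hη, ord_sub h hη h1, fun z hz => hz⟩
  · exact ⟨η, hη, h1 ▸ fun z hz => hz, fun z hz => hz⟩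
  · exact ⟨ξ, hξ, fun z hz => hz, ord_sub h hξ h1⟩

/-- the function of the sets of labels -/
noncomputable def Rf (b : BS) (κ T : V) : V := resS κ fun ξ => b.u (tK T ξ)

theorem app_Rf (b : BS) (κ T : V) {ξ : V} (hξ : ξ ∈ κ) : app (Rf b κ T) ξ = b.u (tK T ξ) :=
  app_resS hξ

theorem ut_eq (b : BS) (κ T : V) : b.ut κ T = (⋃₀ (imS κ (app (Rf b κ T))) : ZFSet) := by
  unfold BS.ut
  congr 1
  ext z
  simp only [mem_imS]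
  refine exists_congr fun ξ => and_congr_right fun hξ => ?_
  rw [app_Rf b κ T hξ]

theorem nRf {D : Cx} {κ : V} {b : BS} (hA : Amb D κ) (hb : b.Ok D κ) {T : V}
    (hT : b.Tw D κ T) : D.N (Rf b κ T) := by
  have hN := hA.ok.zfc.toZFCm.toZFm
  have nκ : D.N κ := hN.trans _ hA.ok.hN _ hA.kH
  have h : Tm ZFm (fun _ v => resS (v 0) fun ξ => app (v 1) (fst (app (v 2) ξ))) :=
    Tm.resS (f := fun _ v => v 0) (g := fun _ v => app (v 2) (fst (app (v 3) (v 0)))) (Tm.var 0)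
      (Tm.app (Tm.var 2) (Tm.fst (Tm.app (Tm.var 3) (Tm.var 0))))
  exact h.1 D.N hN (cons κ (cons b.U (cons T fun _ => ∅)))
    (In.cons (In.cons (In.cons (fun _ => hN.mempty) hT.n) hb.nU) nκ)

theorem iw {D : Cx} {κ : V} {b : BS} (PWE : T_PWE) {T : V} (hT : b.Tw D κ T) {ξ : V}
    (hξ : ξ ∈ κ) : b.Iw D (b.Wd D) (b.rho D ξ) (tK T ξ) (tH T ξ) :=
  (PWE b D _ _ _).1 (hT.w ξ hξ).w

end W0L

open W0L

theorem pf_W0 (F5 : T_F5) (PWE : T_PWE) (PHA : T_PHA) (QRN : T_QRN) (BL : T_BL) (BA : T_BA) :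
    T_W0 := by
  intro D κ b hA hb T hT
  have hOk := hA.ok
  have hN := hOk.zfc.toZFCm.toZFm
  have hiw : ∀ ξ ∈ κ, b.Iw D (b.Wd D) (b.rho D ξ) (tK T ξ) (tH T ξ) := fun ξ hξ => iw PWE hT hξ
  have hob : ∀ ξ ∈ κ, b.Obs (tK T ξ) := fun ξ hξ => (hiw ξ hξ).wo.o
  have hcs : ∀ ξ ∈ κ, CS D (b.u (tK T ξ)) := fun ξ hξ => hb.cs _ (hob ξ hξ).o
  have hnu : ∀ ξ ∈ κ, D.N (b.u (tK T ξ)) := fun ξ hξ => hN.trans _ hOk.hN _ (hcs ξ hξ).h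
  have hlt : ∀ ξ ∈ κ, ∀ η ∈ κ, ξ ∈ η → b.Le (tK T ξ) (tK T η) := fun ξ hξ η hη h =>
    (hT.t0 ξ hξ η hη h).le
  have hLe : ∀ ξ ∈ κ, ∀ η ∈ κ, ξ ⊆ η → b.Le (tK T ξ) (tK T η) := by
    intro ξ hξ η hη h
    rcases sub_cases hA.ord hξ hη h with h1 | h1
    · exact hlt ξ hξ η hη h1
    · rw [h1]; exact hb.rfl _ (hob η hη).o
  have hsub : ∀ ξ ∈ κ, ∀ η ∈ κ, ξ ⊆ η → b.u (tK T ξ) ⊆ b.u (tK T η) := fun ξ hξ η hη h =>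
    (hb.leO _ _ (hLe ξ hξ η hη h)).2.2
  obtain ⟨uH, uC, uM, -, -, uR⟩ := F5 D κ hA (Rf b κ T) (nRf hA hb hT)
    (fun ξ hξ => by rw [app_Rf b κ T hξ]; exact ⟨(hcs ξ hξ).h, (hcs ξ hξ).c⟩)
    (fun ξ hξ η hη h => by
      rw [app_Rf b κ T hξ, app_Rf b κ T hη]
      exact hsub ξ hξ η hη (ord_sub hA.ord hη h))
    (b.ut κ T) (ut_eq b κ T)
  have uM' : ∀ i, i ∈ b.ut κ T ↔ ∃ ξ ∈ κ, i ∈ b.u (tK T ξ) := by
    intro i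
    rw [uM i]
    refine exists_congr fun ξ => and_congr_right fun hξ => ?_
    rw [app_Rf b κ T hξ]
  have usub : ∀ ξ ∈ κ, b.u (tK T ξ) ⊆ b.ut κ T := fun ξ hξ i hi => (uM' i).2 ⟨ξ, hξ, hi⟩
  have nut : D.N (b.ut κ T) := hN.trans _ hOk.hN _ uH
  refine ⟨uH, ⟨uH, uC, fun i hi => ?_⟩, uM', fun ξ hξ => ⟨hob ξ hξ, (hT.w ξ hξ).w, usub ξ hξ⟩,
    fun ξ hξ η hη h => ⟨hLe ξ hξ η hη h, hsub ξ hξ η hη h⟩, ?_⟩
  · obtain ⟨ξ, hξ, h⟩ := (uM' i).1 hi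
    exact (hcs ξ hξ).g i h
  intro ρ nρ cρ hutρ G hG
  have hTr : ∀ s, Cld D.L s → Tr s := fun s hs => (BA.2.2.2.2.2.2 D.L s hs).1
  have hgs : ∀ s, D.N s → s ⊆ ρ → Cld D.L s → D.Gn s (gs G s) ∧
      ∀ s', s' ⊆ s → gs (gs G s) s' = gs G s' := by
    intro s ns hs cs
    obtain ⟨h1, -, -, -, -, -, h2⟩ := (BL D hOk ρ G nρ cρ hG).2 s ns hs (hTr s cs)
    exact ⟨h1, h2⟩
  have hqrn : ∀ s, D.N s → s ⊆ ρ → Cld D.L s → ∀ s', D.N s' → s ⊆ s' → s' ⊆ ρ → Cld D.L s' →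
      ∀ x, RR D s G x → RR D s' G x := by
    intro s ns hs cs s' ns' hss' hs' cs' x hx
    exact (QRN D hOk ρ G s nρ cρ hG ns hs (hTr s cs)).2.2.2.2.2.2.2.1 s' ns' hss' hs'
      (hTr s' cs') x hx
  have huρ : ∀ ξ ∈ κ, b.u (tK T ξ) ⊆ ρ := fun ξ hξ i hi => hutρ (usub ξ hξ hi)
  -- entries
  have hC : ∀ ξ ∈ κ, ∀ X y e, Ent (tH T ξ) G X y e →
      RR D (b.u (tK T ξ)) G X ∧ RR D (b.u (tK T ξ)) G y ∧ e < b.rho D ξ := by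
    intro ξ hξ X y e h
    obtain ⟨h1, h2, h3, -⟩ := (((PHA D hOk _ ρ _ _ (hnu ξ hξ) (hcs ξ hξ).c nρ cρ (huρ ξ hξ)
      (hiw ξ hξ).wo.hs).1 G hG).1 X y e).2 h
    exact ⟨h1, h2, h3⟩
  have hE : ∀ ξ ∈ κ, ∀ X y e, Ent (tH T ξ) G X y e ↔
      Ent (tH T ξ) (gs G (b.u (tK T ξ))) X y e := by
    intro ξ hξ X y e
    exact (((PHA D hOk _ ρ _ _ (hnu ξ hξ) (hcs ξ hξ).c nρ cρ (huρ ξ hξ)
      (hiw ξ hξ).wo.hs).1 G hG).1 X y e).1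
  have hB : ∀ ξ ∈ κ, ∀ η ∈ κ, ξ ⊆ η →
      (∀ x, RR D (b.u (tK T ξ)) G x → RR D (b.u (tK T η)) G x) ∧
      ∀ X y e, (Ent (tH T ξ) G X y e ↔
        RR D (b.u (tK T ξ)) G X ∧ Ent (tH T η) G X y e ∧ e < b.rho D ξ) := by
    intro ξ hξ η hη h
    refine ⟨hqrn _ (hnu ξ hξ) (huρ ξ hξ) (hcs ξ hξ).c _ (hnu η hη) (hsub ξ hξ η hη h) (huρ η hη)
      (hcs η hη).c, fun X y e => ?_⟩
    rcases sub_cases hA.ord hξ hη h with h1 | h1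
    · obtain ⟨gG', gs'⟩ := hgs _ (hnu η hη) (huρ η hη) (hcs η hη).c
      have e1 := gs' _ (hsub ξ hξ η hη h)
      have hR : RR D (b.u (tK T ξ)) (gs G (b.u (tK T η))) X ↔ RR D (b.u (tK T ξ)) G X := by
        unfold RR
        rw [e1]
      have hE1 : Ent (tH T ξ) (gs G (b.u (tK T η))) X y e ↔ Ent (tH T ξ) G X y e := by
        rw [hE ξ hξ X y e]
        have := (((PHA D hOk _ _ _ _ (hnu ξ hξ) (hcs ξ hξ).c (hnu η hη) (hcs η hη).c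
          (hsub ξ hξ η hη h) (hiw ξ hξ).wo.hs).1 _ gG').1 X y e).1
        rw [this, e1]
      have key := (hT.t0 ξ hξ η hη h1).e _ gG' X
      constructor
      · intro h2
        obtain ⟨h3, h4, h5⟩ := hC ξ hξ X y e h2
        have h6 := (key (hR.2 h3) y e).1 ⟨hE1.2 h2, h5⟩
        exact ⟨h3, (hE η hη X y e).2 h6.1, h5⟩
      · rintro ⟨h2, h3, h4⟩
        have h6 := (key (hR.2 h2) y e).2 ⟨(hE η hη X y e).1 h3, h4⟩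
        exact hE1.1 h6.1
    · rw [← h1]
      constructor
      · intro h2
        obtain ⟨h3, h4, h5⟩ := hC ξ hξ X y e h2
        exact ⟨h3, h2, h5⟩
      · exact fun h2 => h2.2.1
  have hup : ∀ ξ ∈ κ, ∀ η ∈ κ, ξ ⊆ η → ∀ X y e, Ent (tH T ξ) G X y e → Ent (tH T η) G X y e :=
    fun ξ hξ η hη h X y e h2 => (((hB ξ hξ η hη h).2 X y e).1 h2).2.1
  refine ⟨fun x => ⟨fun hx => ?_, ?_⟩, hB, hC, ?_, ?_, ?_⟩
  · obtain ⟨gG', gs'⟩ := hgs _ nut hutρ uC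
    obtain ⟨ξ, hξ, h1⟩ := uR _ gG' x hx.1 hx.2
    rw [app_Rf b κ T hξ] at h1
    refine ⟨ξ, hξ, ?_⟩
    unfold RR at h1 ⊢
    rw [gs' _ (usub ξ hξ)] at h1
    exact h1
  · rintro ⟨ξ, hξ, h1⟩
    exact hqrn _ (hnu ξ hξ) (huρ ξ hξ) (hcs ξ hξ).c _ nut (usub ξ hξ) hutρ uC x h1
  · rintro X y y' ⟨ξ, hξ, e, h1⟩ ⟨η, hη, e', h2⟩
    obtain ⟨ζ, hζ, h3, h4⟩ := larger hA.ord hξ hη
    have h5 := hup ξ hξ ζ hζ h3 X y e h1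
    have h6 := hup η hη ζ hζ h4 X y' e' h2
    obtain ⟨gG', -⟩ := hgs _ (hnu ζ hζ) (huρ ζ hζ) (hcs ζ hζ).c
    exact ((hiw ζ hζ).wo.f _ gG' X y y' e e' ((hE ζ hζ X y e).1 h5) ((hE ζ hζ X y' e').1 h6)).1
  · intro X
    constructor
    · rintro ⟨ξ, hξ, y, e, h⟩
      exact ⟨y, ξ, hξ, e, h⟩
    · rintro ⟨y, ξ, hξ, e, h⟩
      exact ⟨ξ, hξ, y, e, h⟩
  · rintro ξ hξ X hX ⟨η, hη, y, e, h⟩
    obtain ⟨ζ, hζ, h3, h4⟩ := larger hA.ord hξ hη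
    exact ⟨ζ, hζ, h3, y, e, hup η hη ζ hζ h4 X y e h⟩

end SE.UZ
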