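import Pool.Agent.H72.UZ.TarW

/-! # W0n: names over the labels of a tower -/

set_option linter.unusedVariables false

open Ordinal Order Set
open scoped ZFSet

namespace SE.UZ

open SF

namespace W0nL

/-- the function of the sets of labels -/
noncomputable def Rf (b : BS) (κ T : V) : V := resS κ fun ξ => b.u (tK T ξ)

theorem app_Rf (b : BS) (κ T : V) {ξ : V} (hξ : ξ ∈ κ) : app (Rf b κ T) ξ = b.u (tK T ξ) :=
  app_resS hξ

theorem ut_eq (b : BS) (κ T : V) : b.ut κ T = (⋃₀ (imS κ (app (Rf b κ T))) : ZFSet) := by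
  unfold BS.ut
  congr 1
  ext z
  simp only [mem_imS]
  refine exists_congr fun ξ => and_congr_right fun hξ => ?_
  rw [app_Rf b κ T hξ]

theorem nRf {D : Cx} {κ : V} {b : BS} (hA : Amb D κ) (hb : b.Ok D κ) {T : V}
    (hT : b.Tw D κ T) : D.N (Rf b κ T) := by
  have hN := hA.ok.zfc.toZFCm.toZFm
  have nκ : D.N κ := hN.trans _ hA.ok.hN _ hA.kH
  have h : Tm ZFm (fun _ v => resS (v 0) fun ξ => app (v 1) (fst (app (v 2) ξ))) :=
    Tm.resS (f := fun _ v => v 0) (g := fun _ v => app (v 2) (fst (app (v 3) (v 0)))) (Tm.var 0)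
      (Tm.app (Tm.var 2) (Tm.fst (Tm.app (Tm.var 3) (Tm.var 0))))
  exact h.1 D.N hN (cons κ (cons b.U (cons T fun _ => ∅)))
    (In.cons (In.cons (In.cons (fun _ => hN.mempty) hT.n) hb.nU) nκ)

end W0nL

open W0nL

theorem pf_W0n (F5 : T_F5) (W0 : T_W0) : T_W0n := by
  intro D κ b hA hb T hT Y nY hY
  obtain ⟨-, -, -, h4, h5, -⟩ := W0 D κ b hA hb T hT
  have hcs : ∀ ξ ∈ κ, CS D (b.u (tK T ξ)) := fun ξ hξ => hb.cs _ (h4 ξ hξ).1.o
  obtain ⟨-, -, -, -, uN, -⟩ := F5 D κ hA (Rf b κ T) (nRf hA hb hT)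
    (fun ξ hξ => by rw [app_Rf b κ T hξ]; exact ⟨(hcs ξ hξ).h, (hcs ξ hξ).c⟩)
    (fun ξ hξ η hη h => by
      rw [app_Rf b κ T hξ, app_Rf b κ T hη]
      exact (h5 ξ hξ η hη (((isOrd_iff κ).1 hA.ord).2 η hη ξ h)).2)
    (b.ut κ T) (ut_eq b κ T)
  obtain ⟨ξ, hξ, Y', nY', hY', hev⟩ := uN Y nY hY
  rw [app_Rf b κ T hξ] at hY'
  exact ⟨ξ, hξ, Y', nY', hY', hev⟩

end SE.UZ
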